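import Mathlib

set_option autoImplicit false

/-! # Numbers `n`, not powers of ten, for which `n n ... n 1` is never prime -/

namespace Pool.Agent.Results.MP_842c30_nt.NeverPrime

open Finset

/-- the number of decimal digits of `n` -/
def d (n : ℕ) : ℕ := (Nat.digits 10 n).length

/-- `C_r(n)`: the decimal expansion of `n` written `r` times in a row -/
def C (r n : ℕ) : ℕ := n * ∑ i ∈ range r, 10 ^ (d n * i)

/-- `N_r(n) = 10 C_r(n) + 1`: the digit `1` appended to `C_r(n)` -/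
def N (r n : ℕ) : ℕ := 10 * C r n + 1

lemma not_prime_of_mul {P k A B : ℕ} (h : P * k = A * B) (hA : k < A) (hB : k < B) (hk : 0 < k) :
    ¬ P.Prime := by
  intro hP
  have hdvd : P ∣ A * B := ⟨k, h.symm⟩
  rcases (Nat.Prime.dvd_mul hP).1 hdvd with ⟨a, ha⟩ | ⟨a, ha⟩
  · have h1 : k = a * B := by
      have : P * k = P * (a * B) := by rw [h, ha]; ring
      exact Nat.eq_of_mul_eq_mul_left hP.pos this
    have h2 : 0 < a := by
      rcases Nat.eq_zero_or_pos a with h0 | h0
      · rw [h0, zero_mul] at h1; omega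
      · exact h0
    have : B ≤ a * B := Nat.le_mul_of_pos_left B h2
    omega
  · have h1 : k = a * A := by
      have : P * k = P * (a * A) := by rw [h, ha]; ring
      exact Nat.eq_of_mul_eq_mul_left hP.pos this
    have h2 : 0 < a := by
      rcases Nat.eq_zero_or_pos a with h0 | h0
      · rw [h0, zero_mul] at h1; omega
      · exact h0
    have : A ≤ a * A := Nat.le_mul_of_pos_left A h2
    omega

lemma geom (D r : ℕ) : (10 ^ D - 1) * ∑ i ∈ range r, 10 ^ (D * i) = 10 ^ (D * r) - 1 := by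
  have h := Nat.geomSum_eq (m := 10 ^ D) (n := r)
  have e : ∀ i, 10 ^ (D * i) = (10 ^ D) ^ i := fun i => pow_mul 10 D i
  simp only [e]
  have := mul_geom_sum (x := ((10 : ℤ) ^ D)) (n := r)
  have h1 : 1 ≤ 10 ^ D := Nat.one_le_pow _ _ (by norm_num)
  have h2 : 1 ≤ (10 ^ D) ^ r := Nat.one_le_pow _ _ h1
  zify [h1, h2]
  exact this

/-- the factorisation behind `n = 104040` -/
lemma fact1 (r : ℕ) : N r 104040 * 111111 =
    (340 * 10 ^ (3 * r) - 67) * (340 * 10 ^ (3 * r) + 67) := by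
  have hd : d 104040 = 6 := by unfold d; norm_num
  have hg := geom 6 r
  set S := ∑ i ∈ range r, 10 ^ (6 * i) with hS
  have hN : N r 104040 = 10 * (104040 * S) + 1 := by unfold N C; rw [hd]
  have hX : 10 ^ (6 * r) = (10 ^ (3 * r)) * (10 ^ (3 * r)) := by rw [← pow_add]; congr 1; ring
  have hX1 : 1 ≤ 10 ^ (3 * r) := Nat.one_le_pow _ _ (by norm_num)
  rw [hX] at hg
  rw [hN]
  set X := 10 ^ (3 * r) with hXdef
  have h1 : 67 ≤ 340 * X := by omega
  have h2 : 1 ≤ X * X := Nat.one_le_iff_ne_zero.2 (by positivity)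
  norm_num at hg
  zify [h1, h2] at hg ⊢
  nlinarith

/-- the factorisation behind `n = 1010` -/
lemma fact2 (r : ℕ) : N r 1010 * 99 = (10 * 10 ^ (2 * r) - 1) * (10 * 10 ^ (2 * r) + 1) := by
  have hd : d 1010 = 4 := by unfold d; norm_num
  have hg := geom 4 r
  set S := ∑ i ∈ range r, 10 ^ (4 * i) with hS
  have hN : N r 1010 = 10 * (1010 * S) + 1 := by unfold N C; rw [hd]
  have hX : 10 ^ (4 * r) = (10 ^ (2 * r)) * (10 ^ (2 * r)) := by rw [← pow_add]; congr 1; ring
  have hX1 : 1 ≤ 10 ^ (2 * r) := Nat.one_le_pow _ _ (by norm_num)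
  rw [hX] at hg
  rw [hN]
  set X := 10 ^ (2 * r) with hXdef
  have h1 : 1 ≤ 10 * X := by omega
  have h2 : 1 ≤ X * X := Nat.one_le_iff_ne_zero.2 (by positivity)
  norm_num at hg
  zify [h1, h2] at hg ⊢
  nlinarith

lemma N_ge (r n : ℕ) (hr : 1 ≤ r) (hn : 1 ≤ n) : 1 < N r n := by
  unfold N C
  have : 1 ≤ ∑ i ∈ range r, 10 ^ (d n * i) := by
    calc 1 = 10 ^ (d n * 0) := by simp
      _ ≤ _ := single_le_sum (f := fun i => 10 ^ (d n * i)) (fun i _ => Nat.zero_le _)
        (by simp; omega)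
  have := Nat.mul_le_mul hn this
  omega

lemma not_pow (n : ℕ) (h : n = 104040 ∨ n = 1010) (m : ℕ) : n ≠ 10 ^ m := by
  intro hm
  by_cases h7 : m < 7
  · interval_cases m <;> omega
  · have : 10 ^ 7 ≤ 10 ^ m := Nat.pow_le_pow_right (by norm_num) (by omega)
    omega

/-- **The conjecture is false.** Neither `104040` nor `1010` is a power of ten, and for both numbers
`n` the number `N_r(n) = 10 C_r(n) + 1` is composite for every `r ≥ 1`. -/
theorem result :
    ∀ n : ℕ, n = 104040 ∨ n = 1010 →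
      (∀ m : ℕ, n ≠ 10 ^ m) ∧ ∀ r : ℕ, 1 ≤ r → 1 < N r n ∧ ¬ (N r n).Prime := by
  intro n hn
  refine ⟨not_pow n hn, fun r hr => ⟨N_ge r n hr (by omega), ?_⟩⟩
  have h3 : 10 ^ 3 ≤ 10 ^ (3 * r) := Nat.pow_le_pow_right (by norm_num) (by omega)
  have h2 : 10 ^ 2 ≤ 10 ^ (2 * r) := Nat.pow_le_pow_right (by norm_num) (by omega)
  rcases hn with rfl | rfl
  · exact not_prime_of_mul (fact1 r) (by omega) (by omega) (by norm_num)
  · exact not_prime_of_mul (fact2 r) (by omega) (by omega) (by norm_num)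

end Pool.Agent.Results.MP_842c30_nt.NeverPrime
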